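import Mathlib
import Pool.Agent.Helper34.LF.St

/-!
# Project LF, module ER2: four good erasures
-/

set_option autoImplicit false

namespace Pool.Agent.Helper16.LF

open Finset Pool.Agent.Helper34.LF

lemma zmod2_ne (x y : ZMod 2) (h : x ≠ y) : x + y = 1 := by
  revert h x y
  decide

lemma par_pair {N : ℕ} (a c : VA N) (b b' : VB N) (hac : a ≠ c) (hbb : b ≠ b') :
    par {a, c} {b, b'} = (b.1 + b'.1) a.1 + (b.1 + b'.1) c.1 := by
  unfold par
  rw [Finset.sum_pair hac, Finset.sum_pair hbb, Finset.sum_pair hbb]
  simp [Pi.add_apply]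

theorem pER2 : StER2 := by
  intro N _ X Y h
  rcases h with ⟨hX, hY⟩ | ⟨hX, hY⟩ | ⟨a, a', c, b, b', haa, hac, hac', hbb, rfl, rfl, hS, hw⟩
  · refine ⟨X, ∅, subset_rfl, empty_subset _, by rw [hX.1]; simp, ?_, by simp⟩
    intro a ha
    left
    exact ⟨by rw [card_erase_of_mem ha, hX.1], hY⟩
  · refine ⟨∅, Y, empty_subset _, subset_rfl, by rw [hY.1]; simp, by simp, ?_⟩
    intro b hb
    right; left
    exact ⟨hX, by rw [card_erase_of_mem hb, hY.1]⟩
  · have hX3 : ({a, a', c} : Finset (VA N)).card = 3 := by
      rw [card_insert_of_notMem, card_pair hac']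
      simp [haa, hac]
    have hY2 : ({b, b'} : Finset (VB N)).card = 2 := card_pair hbb
    have h1 : (b.1 + b'.1) a.1 + (b.1 + b'.1) c.1 = 1 := zmod2_ne _ _ hw
    refine ⟨{a, a'}, {b, b'}, ?_, subset_rfl, by rw [card_pair haa, hY2], ?_, ?_⟩
    · intro x hx
      simp only [mem_insert, mem_singleton] at hx ⊢
      tauto
    · intro x hx
      simp only [mem_insert, mem_singleton] at hx
      right; right
      rcases hx with rfl | rfl
      · have e : ({x, a', c} : Finset (VA N)).erase x = {a', c} := by
          rw [erase_insert]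
          simp [haa, hac]
        rw [e]
        refine ⟨card_pair hac', hY2, ?_⟩
        rw [par_pair _ _ _ _ hac' hbb, ← hS.1]
        exact h1
      · have e : ({a, x, c} : Finset (VA N)).erase x = {a, c} := by
          rw [Finset.insert_comm, erase_insert]
          simp [haa.symm, hac']
        rw [e]
        refine ⟨card_pair hac, hY2, ?_⟩
        rw [par_pair _ _ _ _ hac hbb]
        exact h1
    · intro y hy
      left
      exact ⟨hX3, by rw [card_erase_of_mem hy, hY2]⟩

end Pool.Agent.Helper16.LF
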